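import Pool.Agent.Helper35.IL.Stm
import Pool.Agent.Helper63.HS.TRD

/-! Project IL: the instances by ranks. -/

set_option autoImplicit false

namespace Pool.Agent.Helper63.IL

open Pool.Agent.Helper35.EM Pool.Agent.Helper56.SA Pool.Agent.Helper56.EM Set

theorem rk_iff (A : Set ℂ) (hA : A.Finite) (n k : ℕ) :
    (n : Cardinal) ≤ Algebra.trdeg ℚ (IntermediateField.adjoin ℚ A) + (k : Cardinal) ↔
      (n : ℕ∞) ≤ M.eRk A + (k : ℕ∞) := by
  have h1 : M.eRk A ≠ ⊤ := ne_top_of_le_ne_top hA.encard_lt_top.ne (M.eRk_le_encard A)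
  obtain ⟨r, hr⟩ := ENat.ne_top_iff_exists.1 h1
  have h2 : Algebra.trdeg ℚ (IntermediateField.adjoin ℚ A) = (r : Cardinal) :=
    le_antisymm ((Pool.Agent.Helper63.HS.trd A r).2.1 hr.symm.le)
      ((Pool.Agent.Helper63.HS.trd A r).1.1 hr.le)
  rw [h2, ← hr]
  constructor
  · intro h
    have h3 : n ≤ r + k := by exact_mod_cast h
    exact_mod_cast h3
  · intro h
    have h3 : n ≤ r + k := by exact_mod_cast h
    exact_mod_cast h3

/-- Package TRS: `LogInst` is `SL`. -/
theorem trs : Pool.Agent.Helper35.IL.S_TRS := by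
  intro F n k
  exact forall_congr' fun u => imp_congr_right fun _ => imp_congr_right fun _ =>
    rk_iff (range u) (Set.finite_range u) n k

end Pool.Agent.Helper63.IL
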